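import Pool.Agent.helper11.VDI.SpecC

/-!
# Project INF (MP_07c750_an), row DNB: the density of a nearby metric
-/

set_option autoImplicit false

open scoped ContDiff Topology InnerProductSpace ENNReal ComplexConjugate
open MeasureTheory Filter Set

namespace Pool.Agent.VDI

open Pool.Agent.RPQ (PN PJ UN upd IsOp)
open Pool.Agent.VQ (CH AdZ perZ rk)
open Pool.Agent.VN (aN)
open Pool.Agent.VD
open Pool.Agent.VDE (UWLD FDX)

noncomputable section

theorem DNB_prod {ι : Type} [DecidableEq ι] (a b : ι → ℝ) (M δ : ℝ) (hM : 1 ≤ M) (hδ : 0 ≤ δ) (ha : ∀ i, |a i| ≤ M) (hb : ∀ i, |b i| ≤ M)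
    (hab : ∀ i, |a i - b i| ≤ δ) (s : Finset ι) : |∏ i ∈ s, a i| ≤ M ^ s.card ∧ |∏ i ∈ s, b i| ≤ M ^ s.card ∧
      |∏ i ∈ s, a i - ∏ i ∈ s, b i| ≤ s.card * M ^ s.card * δ := by
  induction s using Finset.induction_on with
  | empty => simp
  | insert k s hk ih =>
    obtain ⟨h1, h2, h3⟩ := ih
    have hM0 : 0 ≤ M := by linarith
    rw [Finset.prod_insert hk, Finset.prod_insert hk, Finset.card_insert_of_notMem hk]
    refine ⟨?_, ?_, ?_⟩
    · rw [abs_mul, pow_succ, mul_comm (M ^ s.card)]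
      exact mul_le_mul (ha k) h1 (abs_nonneg _) hM0
    · rw [abs_mul, pow_succ, mul_comm (M ^ s.card)]
      exact mul_le_mul (hb k) h2 (abs_nonneg _) hM0
    · have h4 : a k * ∏ i ∈ s, a i - b k * ∏ i ∈ s, b i = a k * (∏ i ∈ s, a i - ∏ i ∈ s, b i) + (a k - b k) * ∏ i ∈ s, b i := by ring
      have hMc : 0 ≤ M ^ s.card := by positivity
      calc |a k * ∏ i ∈ s, a i - b k * ∏ i ∈ s, b i| ≤ |a k| * |∏ i ∈ s, a i - ∏ i ∈ s, b i| + |a k - b k| * |∏ i ∈ s, b i| := by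
            rw [h4, ← abs_mul, ← abs_mul]
            exact abs_add_le _ _
        _ ≤ M * (s.card * M ^ s.card * δ) + δ * M ^ s.card := by
            refine add_le_add (mul_le_mul (ha k) h3 (abs_nonneg _) hM0) (mul_le_mul (hab k) h2 (abs_nonneg _) hδ)
        _ ≤ M * (s.card * M ^ s.card * δ) + M * (M ^ s.card * δ) := by
            have h5 : 0 ≤ M ^ s.card * δ := mul_nonneg hMc hδ
            nlinarith
        _ = ((s.card + 1 : ℕ) : ℝ) * M ^ (s.card + 1) * δ := by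
            push_cast
            ring

theorem DNB_det (d : ℕ) (A A' : Matrix (Fin d) (Fin d) ℝ) (M δ : ℝ) (hM : 1 ≤ M) (hδ : 0 ≤ δ) (hA : ∀ i j, |A i j| ≤ M) (hA' : ∀ i j, |A' i j| ≤ M)
    (hd : ∀ i j, |A i j - A' i j| ≤ δ) : |A.det - A'.det| ≤ (d.factorial : ℝ) * (d * M ^ d * δ) := by
  rw [Matrix.det_apply, Matrix.det_apply, ← Finset.sum_sub_distrib]
  refine (Finset.abs_sum_le_sum_abs _ _).trans ?_
  have h : ∀ σ ∈ (Finset.univ : Finset (Equiv.Perm (Fin d))), |Equiv.Perm.sign σ • ∏ i, A (σ i) i - Equiv.Perm.sign σ • ∏ i, A' (σ i) i| ≤ d * M ^ d * δ := by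
    intro σ _
    rw [← smul_sub]
    have h1 := (DNB_prod (fun i => A (σ i) i) (fun i => A' (σ i) i) M δ hM hδ (fun i => hA _ _) (fun i => hA' _ _) (fun i => hd _ _) Finset.univ).2.2
    rw [Finset.card_univ, Fintype.card_fin] at h1
    rcases Int.units_eq_one_or (Equiv.Perm.sign σ) with h2 | h2
    · rw [h2, one_smul]
      exact h1
    · rw [h2, Units.neg_smul, one_smul, abs_neg]
      exact h1
  refine (Finset.sum_le_card_nsmul _ _ _ h).trans (le_of_eq ?_)
  rw [Finset.card_univ, Fintype.card_perm, Fintype.card_fin, nsmul_eq_mul]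

/-- the determinant is Lipschitz on balls -/
theorem DNB_lip (d : ℕ) : ∃ C : ℝ, 1 ≤ C ∧ ∀ (X X' : V d →L[ℝ] V d) (M : ℝ), 1 ≤ M → ‖X‖ ≤ M → ‖X'‖ ≤ M → |X.det - X'.det| ≤ C * M ^ d * ‖X - X'‖ := by
  have h0 : (0 : ℝ) ≤ (d.factorial : ℝ) * d := by positivity
  refine ⟨(d.factorial : ℝ) * d + 1, by linarith, ?_⟩
  intro X X' M hM hX hX'
  obtain ⟨T, hT⟩ : ∃ T : (V d →L[ℝ] V d) → Matrix (Fin d) (Fin d) ℝ, ∀ Y, T Y = LinearMap.toMatrix (EuclideanSpace.basisFun (Fin d) ℝ).toBasis (EuclideanSpace.basisFun (Fin d) ℝ).toBasis (Y : V d →ₗ[ℝ] V d) := ⟨_, fun _ => rfl⟩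
  have hdet : ∀ Y : V d →L[ℝ] V d, Y.det = (T Y).det := by
    intro Y
    rw [hT, LinearMap.det_toMatrix]
  have hent : ∀ (Y : V d →L[ℝ] V d) i j, T Y i j = Y (EuclideanSpace.single j 1) i := by
    intro Y i j
    rw [hT, LinearMap.toMatrix_apply]
    simp
  have hbd : ∀ (Y : V d →L[ℝ] V d) i j, |Y (EuclideanSpace.single j 1) i| ≤ ‖Y‖ := by
    intro Y i j
    have h1 : |Y (EuclideanSpace.single j 1) i| ≤ ‖Y (EuclideanSpace.single j 1)‖ := by
      rw [← Real.norm_eq_abs]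
      exact PiLp.norm_apply_le _ i
    refine h1.trans ((Y.le_opNorm _).trans ?_)
    rw [PiLp.norm_single, norm_one, mul_one]
  rw [hdet X, hdet X']
  have h1 := DNB_det d (T X) (T X') M ‖X - X'‖ hM (norm_nonneg _) (fun i j => by rw [hent]; exact (hbd X i j).trans hX)
    (fun i j => by rw [hent]; exact (hbd X' i j).trans hX') (fun i j => by
      rw [hent, hent]
      have h2 := hbd (X - X') i j
      simpa using h2)
  refine h1.trans ?_
  have h3 : 0 ≤ M ^ d * ‖X - X'‖ := by positivity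
  calc (d.factorial : ℝ) * (d * M ^ d * ‖X - X'‖) = ((d.factorial : ℝ) * d) * (M ^ d * ‖X - X'‖) := by ring
    _ ≤ ((d.factorial : ℝ) * d + 1) * (M ^ d * ‖X - X'‖) := mul_le_mul_of_nonneg_right (by linarith) h3
    _ = _ := by ring

theorem DNB_sqrt {t : ℝ} (ht : 0 ≤ t) : |Real.sqrt t - 1| ≤ |t - 1| := by
  have h1 : 0 ≤ Real.sqrt t := Real.sqrt_nonneg _
  have h2 : t - 1 = (Real.sqrt t - 1) * (Real.sqrt t + 1) := by
    have := Real.mul_self_sqrt ht
    nlinarith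
  rw [h2, abs_mul, abs_of_nonneg (by linarith : 0 ≤ Real.sqrt t + 1)]
  nlinarith [abs_nonneg (Real.sqrt t - 1), mul_nonneg (abs_nonneg (Real.sqrt t - 1)) h1]

theorem DNB_id (d : ℕ) : (ContinuousLinearMap.id ℝ (V d)).det = 1 := by
  have h : LinearMap.det (LinearMap.id : V d →ₗ[ℝ] V d) = 1 := LinearMap.det_id
  exact h

/-- a positive operator has a positive determinant: the determinant does not vanish on the segment from the identity -/
theorem DNB_pos (d : ℕ) (A : V d →L[ℝ] V d) (hpos : ∀ u, u ≠ 0 → 0 < ⟪A u, u⟫_ℝ) : 0 < A.det := by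
  obtain ⟨P, hP⟩ : ∃ P : ℝ → V d →L[ℝ] V d, ∀ t, P t = (1 - t) • ContinuousLinearMap.id ℝ (V d) + t • A := ⟨_, fun _ => rfl⟩
  have hne : ∀ t ∈ Icc (0 : ℝ) 1, (P t).det ≠ 0 := by
    intro t ht h0
    have h1 : LinearMap.det ((P t : V d →L[ℝ] V d) : V d →ₗ[ℝ] V d) = 0 := h0
    have h2 : ⊥ < LinearMap.ker ((P t : V d →L[ℝ] V d) : V d →ₗ[ℝ] V d) := LinearMap.bot_lt_ker_of_det_eq_zero h1
    obtain ⟨u, hu, hu0⟩ := (Submodule.ne_bot_iff _).1 h2.ne'
    have h3 : P t u = 0 := hu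
    have h4 : ⟪P t u, u⟫_ℝ = (1 - t) * ‖u‖ ^ 2 + t * ⟪A u, u⟫_ℝ := by
      rw [hP, ContinuousLinearMap.add_apply, ContinuousLinearMap.smul_apply, ContinuousLinearMap.smul_apply, ContinuousLinearMap.id_apply, inner_add_left, real_inner_smul_left,
        real_inner_smul_left, real_inner_self_eq_norm_sq]
    rw [h3, inner_zero_left] at h4
    have h5 : 0 < ‖u‖ ^ 2 := by
      have := norm_pos_iff.2 hu0
      positivity
    have h6 := hpos u hu0
    rcases eq_or_lt_of_le ht.1 with h7 | h7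
    · rw [← h7] at h4
      nlinarith
    · have h8 : 0 ≤ (1 - t) * ‖u‖ ^ 2 := mul_nonneg (by linarith [ht.2]) h5.le
      have h9 : 0 < t * ⟪A u, u⟫_ℝ := mul_pos h7 h6
      linarith
  have hcont : Continuous fun t => (P t).det := by
    obtain ⟨C, hC1, hC⟩ := DNB_lip d
    have hPc : Continuous P := by
      have : P = fun t => (1 - t) • ContinuousLinearMap.id ℝ (V d) + t • A := funext hP
      rw [this]
      fun_prop
    rw [Metric.continuous_iff]
    intro t ε hε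
    have h1 : ContinuousAt P t := hPc.continuousAt
    have hK : 0 < C * (‖P t‖ + 2) ^ d := by positivity
    obtain ⟨δ, hδ, h2⟩ := Metric.continuous_iff.1 hPc t (min 1 (ε / (C * (‖P t‖ + 2) ^ d))) (lt_min one_pos (div_pos hε hK))
    refine ⟨δ, hδ, fun s hs => ?_⟩
    have h3 := h2 s hs
    rw [dist_eq_norm] at h3
    have h4 : ‖P s - P t‖ < 1 := h3.trans_le (min_le_left _ _)
    have h5 : ‖P s - P t‖ < ε / (C * (‖P t‖ + 2) ^ d) := h3.trans_le (min_le_right _ _)
    have h6 : ‖P s‖ ≤ ‖P t‖ + 2 := by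
      have := norm_le_norm_add_norm_sub' (P s) (P t)
      linarith
    have h7 := hC (P s) (P t) (‖P t‖ + 2) (by linarith [norm_nonneg (P t)]) h6 (by linarith)
    rw [Real.dist_eq]
    refine h7.trans_lt ?_
    rw [lt_div_iff₀ hK] at h5
    linarith
  have h1 : (P 0).det = 1 := by
    have h0 : P 0 = ContinuousLinearMap.id ℝ (V d) := by
      refine ContinuousLinearMap.ext fun u => ?_
      rw [hP]
      change (1 - (0 : ℝ)) • u + (0 : ℝ) • A u = u
      rw [sub_zero, one_smul, zero_smul, add_zero]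
    rw [h0]
    exact DNB_id d
  have h2 : (P 1).det = A.det := by
    have h0 : P 1 = A := by
      refine ContinuousLinearMap.ext fun u => ?_
      rw [hP]
      change (1 - (1 : ℝ)) • u + (1 : ℝ) • A u = A u
      rw [sub_self, one_smul, zero_smul, zero_add]
    rw [h0]
  by_contra hneg
  have h3 : (P 1).det ≤ 0 := by
    rw [h2]
    linarith
  have h4 : (0 : ℝ) ∈ (fun t => (P t).det) '' Icc (0 : ℝ) 1 := intermediate_value_Icc' zero_le_one hcont.continuousOn ⟨h3, by rw [h1]; norm_num⟩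
  obtain ⟨t, ht, h5⟩ := h4
  exact hne t ht h5

theorem DNB_proof : DNB_stmt := by
  intro d M hM
  obtain ⟨C, hC1, hC⟩ := DNB_lip d
  have hM0 : 0 < M := by linarith
  have h2d : (1 : ℝ) ≤ 2 ^ d := one_le_pow₀ (by norm_num)
  refine ⟨C * 2 ^ d * M, 1 / M, ?_, by positivity, ?_⟩
  · have h1 : 1 ≤ C * 2 ^ d := one_le_mul_of_one_le_of_one_le hC1 h2d
    exact one_le_mul_of_one_le_of_one_le h1 hM
  intro G G' x η hG hG' hη0 hη hlow hnear
  have hX : 0 < (G x).det := DNB_pos d (G x) (hG.pos x)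
  have hX' : 0 < (G' x).det := DNB_pos d (G' x) (hG'.pos x)
  have hinj : Function.Injective ((G x : V d →L[ℝ] V d) : V d →ₗ[ℝ] V d) := by
    rw [← LinearMap.ker_eq_bot, LinearMap.ker_eq_bot']
    intro u hu
    by_contra hu0
    have h1 := hG.pos x u hu0
    have h2 : G x u = 0 := hu
    rw [h2, inner_zero_left] at h1
    exact lt_irrefl _ h1
  obtain ⟨e, he⟩ : ∃ e : V d ≃ₗ[ℝ] V d, ∀ u, e u = G x u := ⟨LinearEquiv.ofInjectiveEndo _ hinj, fun u => rfl⟩
  obtain ⟨B, hB⟩ : ∃ B : V d →L[ℝ] V d, ∀ w, B w = e.symm w := ⟨(e.symm.toContinuousLinearEquiv : V d →L[ℝ] V d), fun w => rfl⟩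
  have hGB : ∀ w, G x (B w) = w := by
    intro w
    rw [hB, ← he, LinearEquiv.apply_symm_apply]
  have hBn : ∀ w, ‖B w‖ ≤ M * ‖w‖ := by
    intro w
    have h1 := hlow (B w)
    rw [hGB w] at h1
    have h2 : ⟪w, B w⟫_ℝ ≤ ‖w‖ * ‖B w‖ := real_inner_le_norm _ _
    rcases eq_or_lt_of_le (norm_nonneg (B w)) with h3 | h3
    · rw [← h3]
      positivity
    · have h4 : ‖B w‖ * ‖B w‖ ≤ (M * ‖w‖) * ‖B w‖ := by nlinarith
      exact le_of_mul_le_mul_right h4 h3
  obtain ⟨A, hA⟩ : ∃ A : V d →L[ℝ] V d, ∀ w, A w = B (G' x w - G x w) := ⟨B ∘L (G' x - G x), fun w => by simp⟩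
  have hAn : ‖A‖ ≤ M * η := by
    refine A.opNorm_le_bound (by positivity) fun w => ?_
    rw [hA]
    have h1 : ‖G' x w - G x w‖ ≤ η * ‖w‖ := by
      rw [← ContinuousLinearMap.sub_apply]
      refine (ContinuousLinearMap.le_opNorm _ _).trans (mul_le_mul_of_nonneg_right ?_ (norm_nonneg _))
      rw [norm_sub_rev]
      exact hnear
    calc ‖B (G' x w - G x w)‖ ≤ M * ‖G' x w - G x w‖ := hBn _
      _ ≤ M * (η * ‖w‖) := mul_le_mul_of_nonneg_left h1 hM0.le
      _ = M * η * ‖w‖ := by ring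
  have hMη : M * η ≤ 1 := by
    have := mul_le_mul_of_nonneg_left hη hM0.le
    rwa [mul_one_div_cancel hM0.ne'] at this
  obtain ⟨I, hI⟩ : ∃ I : V d →L[ℝ] V d, I = ContinuousLinearMap.id ℝ (V d) := ⟨_, rfl⟩
  have hIn : ‖I‖ ≤ 1 := by
    rw [hI]
    exact ContinuousLinearMap.norm_id_le
  have hIdet : I.det = 1 := by
    rw [hI]
    exact DNB_id d
  have hdl := hC (I + A) I 2 (by norm_num) ((norm_add_le _ _).trans (by linarith)) (by linarith)
  rw [hIdet, add_sub_cancel_left] at hdl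
  have hfac : (G x).det * (I + A).det = (G' x).det := by
    have h1 : ((G x : V d →L[ℝ] V d) : V d →ₗ[ℝ] V d) ∘ₗ ((I + A : V d →L[ℝ] V d) : V d →ₗ[ℝ] V d) = ((G' x : V d →L[ℝ] V d) : V d →ₗ[ℝ] V d) := by
      refine LinearMap.ext fun w => ?_
      change G x ((I + A) w) = G' x w
      rw [ContinuousLinearMap.add_apply, map_add, hA, hGB, hI, ContinuousLinearMap.id_apply, add_sub_cancel]
    have h2 : LinearMap.det ((G x : V d →L[ℝ] V d) : V d →ₗ[ℝ] V d) * LinearMap.det ((I + A : V d →L[ℝ] V d) : V d →ₗ[ℝ] V d) = LinearMap.det ((G' x : V d →L[ℝ] V d) : V d →ₗ[ℝ] V d) := by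
      rw [← h1, LinearMap.det_comp]
    exact h2
  have ht : 0 ≤ (I + A).det := by
    by_contra h
    have h1 : (G x).det * (I + A).det < 0 := mul_neg_of_pos_of_neg hX (not_le.1 h)
    rw [hfac] at h1
    linarith
  have hs := DNB_sqrt ht
  have hdens : dens G' x = dens G x * Real.sqrt (I + A).det := by
    unfold dens
    rw [← hfac, Real.sqrt_mul hX.le]
  have hd0 : 0 ≤ dens G x := Real.sqrt_nonneg _
  calc |dens G' x - dens G x| = dens G x * |Real.sqrt (I + A).det - 1| := by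
        have h1 : dens G x * Real.sqrt (I + A).det - dens G x = dens G x * (Real.sqrt (I + A).det - 1) := by ring
        rw [hdens, h1, abs_mul, abs_of_nonneg hd0]
    _ ≤ dens G x * |(I + A).det - 1| := mul_le_mul_of_nonneg_left hs hd0
    _ ≤ dens G x * (C * 2 ^ d * ‖A‖) := mul_le_mul_of_nonneg_left hdl hd0
    _ ≤ dens G x * (C * 2 ^ d * (M * η)) := by
        refine mul_le_mul_of_nonneg_left (mul_le_mul_of_nonneg_left hAn (by positivity)) hd0
    _ = C * 2 ^ d * M * η * dens G x := by ring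

end

end Pool.Agent.VDI
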