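import Pool.Agent.helper55.VDI.SpecB1
import Pool.Agent.helper66.VD.EE2
import Pool.Agent.helper32.VD.EG0

/-!
# EE2B (project INF, MP_07c750_an, version B, block E for pairs of metrics): the energy window
-/

set_option autoImplicit false

open scoped ContDiff Topology InnerProductSpace ComplexConjugate ENNReal
open MeasureTheory Filter Set

namespace Pool.Agent.VDI

open Pool.Agent.VD
open Pool.Agent.VQ (CH KZ PS perZ cmZ)
open Pool.Agent.RPQ (IsOp)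
open Pool.Agent.VDA (STP FB FR FT nY OY OA)
open Pool.Agent.VDE (FDX)

noncomputable section

/-- `|a + b|² ≤ 2 |a|² + 2 |b|²` -/
theorem EE2B_sq (a b : ℂ) : ‖a + b‖ₑ ^ 2 ≤ 2 * ‖a‖ₑ ^ 2 + 2 * ‖b‖ₑ ^ 2 := by
  have h1 : ‖a + b‖ ^ 2 ≤ 2 * ‖a‖ ^ 2 + 2 * ‖b‖ ^ 2 := by
    have h2 := norm_add_le a b
    have h3 := norm_nonneg (a + b)
    nlinarith [sq_nonneg (‖a‖ - ‖b‖)]
  have e : ∀ x : ℂ, ‖x‖ₑ ^ 2 = ENNReal.ofReal (‖x‖ ^ 2) := fun x => by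
    rw [ENNReal.ofReal_pow (norm_nonneg _), ofReal_norm]
  rw [e, e, e]
  have h2 : (2 : ENNReal) = ENNReal.ofReal 2 := by simp
  rw [h2, ← ENNReal.ofReal_mul (by norm_num), ← ENNReal.ofReal_mul (by norm_num), ← ENNReal.ofReal_add (by positivity) (by positivity)]
  exact ENNReal.ofReal_le_ofReal h1

/-- the mass of a sum outside of a window -/
theorem EE2B_mass {Γ : Type} {d : ℕ} {v v1 v2 : YS Γ d → ℂ} (hv1 : Measurable v1) (hv : ∀ y, v y = v1 y + v2 y) {D W W' : Set (YS Γ d)} (hWW : W' ⊆ W) {a b : ℝ} (ha : 0 ≤ a) (hb : 0 ≤ b)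
    (h1 : ∫⁻ y in D \ W', ‖v1 y‖ₑ ^ 2 ∂mY Γ d ≤ ENNReal.ofReal a) (h2 : ∫⁻ y in D, ‖v2 y‖ₑ ^ 2 ∂mY Γ d ≤ ENNReal.ofReal b) :
    ∫⁻ y in D \ W, ‖v y‖ₑ ^ 2 ∂mY Γ d ≤ ENNReal.ofReal (2 * a + 2 * b) := by
  have e1 : ∫⁻ y in D \ W, ‖v1 y‖ₑ ^ 2 ∂mY Γ d ≤ ENNReal.ofReal a := (lintegral_mono_set (diff_subset_diff_right hWW)).trans h1
  have e2 : ∫⁻ y in D \ W, ‖v2 y‖ₑ ^ 2 ∂mY Γ d ≤ ENNReal.ofReal b := (lintegral_mono_set diff_subset).trans h2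
  have h3 : (2 : ENNReal) = ENNReal.ofReal 2 := by simp
  calc ∫⁻ y in D \ W, ‖v y‖ₑ ^ 2 ∂mY Γ d ≤ ∫⁻ y in D \ W, (2 * ‖v1 y‖ₑ ^ 2 + 2 * ‖v2 y‖ₑ ^ 2) ∂mY Γ d := by
        refine lintegral_mono fun y => ?_
        rw [hv y]
        exact EE2B_sq _ _
    _ = 2 * ∫⁻ y in D \ W, ‖v1 y‖ₑ ^ 2 ∂mY Γ d + 2 * ∫⁻ y in D \ W, ‖v2 y‖ₑ ^ 2 ∂mY Γ d := by
        rw [lintegral_add_left ((hv1.enorm.pow_const 2).const_mul 2), lintegral_const_mul' _ _ (by norm_num), lintegral_const_mul' _ _ (by norm_num)]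
    _ ≤ 2 * ENNReal.ofReal a + 2 * ENNReal.ofReal b := add_le_add (mul_le_mul_right e1 _) (mul_le_mul_right e2 _)
    _ = ENNReal.ofReal (2 * a + 2 * b) := by
        rw [h3, ← ENNReal.ofReal_mul (by norm_num), ← ENNReal.ofReal_mul (by norm_num), ← ENNReal.ofReal_add (by positivity) (by positivity)]

theorem EE2B_proof (hRHB : RHB_stmt) (hQRB : QRB_stmt) (hGWB : GWB_stmt) (hAMVI : AMVI_stmt) (hADMD : ADMD_stmt) (hAQSD : AQSD_stmt) (hAISD : AISD_stmt) (hAQAD : AQAD_stmt)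
    (hAELD : AELD_stmt) : EE2B_stmt := by
  intro d Γ _ _ K k B b r0 χ hK hχ
  refine ⟨900, by norm_num, ?_⟩
  intro ch A hch hA
  obtain ⟨hz0, hz1, -, hz2, -, -, hz3, -⟩ := EAM1 hA (by norm_num)
  have hz : A.z ≤ 1 / 900 := by linarith
  have hz8 : A.z ≤ 1 / 8 := by linarith
  obtain ⟨R2, hR2, H2⟩ := hAQSD d Γ K k B r0 χ ch A.z hK hχ hch hz0 hz8
  obtain ⟨R3, hR3, H3⟩ := hAISD d Γ K k B r0 χ ch A.z hK hχ hch hz0 hz8
  obtain ⟨R4, hR4, H4⟩ := hAQAD d Γ K k B r0 χ ch A.z hK hχ hch hz0 hz8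
  obtain ⟨R5, hR5, H5⟩ := hAELD d Γ K k B r0 χ ch A.z hK hχ hch hz0 hz8
  obtain ⟨C6, R6, hC6, hR6, H6⟩ := hRHB d Γ K k B b hK
  obtain ⟨R7, hR7, H7⟩ := hQRB d Γ K k B b hK
  obtain ⟨R8, hR8, H8⟩ := hGWB d Γ K k B b r0 hK
  refine ⟨max (max R2 R3) (max (max R4 R5) (max (max R6 R7) (max R8 (73 ^ 20)))), ?_, ?_⟩
  · exact hR2.trans ((le_max_left _ _).trans (le_max_left _ _))
  intro R F G f u hR hF hG hAp
  obtain ⟨G', hNr, hAp'⟩ := hAp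
  have hG' := hNr.cls
  have g2 : R2 ≤ R := ((le_max_left _ _).trans (le_max_left _ _)).trans hR
  have g3 : R3 ≤ R := ((le_max_right _ _).trans (le_max_left _ _)).trans hR
  have gr : max (max R4 R5) (max (max R6 R7) (max R8 (73 ^ 20))) ≤ R := (le_max_right _ _).trans hR
  have g4 : R4 ≤ R := ((le_max_left _ _).trans (le_max_left _ _)).trans gr
  have g5 : R5 ≤ R := ((le_max_right _ _).trans (le_max_left _ _)).trans gr
  have gs : max (max R6 R7) (max R8 (73 ^ 20)) ≤ R := (le_max_right _ _).trans gr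
  have g6 : R6 ≤ R := ((le_max_left _ _).trans (le_max_left _ _)).trans gs
  have g7 : R7 ≤ R := ((le_max_right _ _).trans (le_max_left _ _)).trans gs
  have gt : max R8 (73 ^ 20) ≤ R := (le_max_right _ _).trans gs
  have g8 : R8 ≤ R := (le_max_left _ _).trans gt
  have g9 : (73 : ℝ) ^ 20 ≤ R := (le_max_right _ _).trans gt
  have hR1 : 1 ≤ R := le_trans (by norm_num) g9
  have hR0 : 0 < R := by linarith
  have hDm : Dm (⊤ : Subgroup Γ) F ({1} : Set Γ) := Or.inl ⟨rfl, hF, rfl⟩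
  obtain ⟨-, -, -, -, hfin, -⟩ := hAMVI d Γ K k B G hK hG
  obtain ⟨-, -, -, -, hfin', -⟩ := hAMVI d Γ K k B G' hK hG'
  obtain ⟨-, -, -, -, hGW, -⟩ := hADMD d Γ K k B G hK hG
  obtain ⟨s1, s2, -, -, -, -, hQ⟩ := H2 R G g2 hG
  obtain ⟨hQ1, -⟩ := hQ ⊤ F {1} hDm
  obtain ⟨hFP, -⟩ := hQ1 u hAp'.fh
  obtain ⟨-, -, -, -, -, -, hQ'⟩ := H2 R G' g2 hG'
  obtain ⟨hQ1', -⟩ := hQ' ⊤ F {1} hDm
  obtain ⟨hFP', -⟩ := hQ1' u hAp'.fh
  obtain ⟨hI1, hI2⟩ := H3 R G g3 hG ⊤ F {1} hDm u hAp'.fh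
  obtain ⟨hA1, -⟩ := H4 R G g4 hG ⊤ F {1} hDm
  obtain ⟨hA2, hA3⟩ := hA1 u hAp'.fh
  obtain ⟨-, hE⟩ := H5 R G' g5 hG' ⊤ F {1} hDm u 0 hAp'.fh hAp'.cd (by norm_num)
  obtain ⟨-, hr2, -, hr4, -, hr6⟩ := H6 R G G' g6 hG hNr
  have hN0 : 0 ≤ nn G F u := integral_nonneg fun z => by positivity
  have hN0' : 0 ≤ nn G' F u := integral_nonneg fun z => by positivity
  have hnum := EE2_num hR1 hz hN0' (EE2_hop hF hfin' hAp'.fh.cont hR1 hAp'.bd)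
  have hp4 : 0 < R ^ (-(1 / 4) : ℝ) := Real.rpow_pos_of_pos hR0 _
  have hp49 : 0 < R ^ (-(49 / 100) : ℝ) := Real.rpow_pos_of_pos hR0 _
  obtain ⟨hn1, -, hn3⟩ := hr6 F hF u hAp'.fh.cont
  -- the second part of `u`
  obtain ⟨w, hw⟩ : ∃ w : V d → ℂ, ∀ z, w z = ((1 - roB G G' z : ℝ) : ℂ) * u z := ⟨_, fun _ => rfl⟩
  have hwe : (fun z => ((1 - roB G G' z : ℝ) : ℂ) * u z) = w := (funext hw).symm
  rw [hwe] at hn3
  have hwc : Continuous w := by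
    rw [← hwe]
    exact (Complex.continuous_ofReal.comp (continuous_const.sub hr4)).mul hAp'.fh.cont
  have hwF : FH (⊤ : Subgroup Γ) F w := by
    obtain ⟨c, hc⟩ := hF.bdd
    refine ⟨hwc, fun γ hγ z => ?_, c, fun z hz _ => hc z hz⟩
    rw [hw, hw, hr2, hAp'.fh.inv γ hγ z]
  have hru : Continuous fun z => ((roB G G' z : ℝ) : ℂ) * u z := (Complex.continuous_ofReal.comp hr4).mul hAp'.fh.cont
  have hlin : ∀ y : YS Γ d, QF G χ ch A.z R u y = QF G' χ ch A.z R u y + QF G χ ch A.z R w y := by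
    intro y
    rw [H7 R G G' χ ch A.z u y g7 hG hNr]
    have hgc : Continuous (Gp G χ ch A.z R y) := (s1 y.1).comp (continuous_const.prodMk continuous_id)
    have hgs : ∀ z, Gp G χ ch A.z R y z ≠ 0 → ‖y.1⁻¹ • z‖ ≤ r0 := fun z hz => (s2 y z hz).2.2
    have j1 := EG0_int hK.smooth G hfin r0 y _ hgc hgs _ hru
    have j2 := EG0_int hK.smooth G hfin r0 y _ hgc hgs w hwc
    unfold QF
    rw [← integral_add j1 j2]
    refine integral_congr_ae (Eventually.of_forall fun z => ?_)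
    change u z * conj (Gp G χ ch A.z R y z) = ((roB G G' z : ℝ) : ℂ) * u z * conj (Gp G χ ch A.z R y z) + w z * conj (Gp G χ ch A.z R y z)
    rw [hw]
    push_cast
    ring
  have hNw : 0 ≤ nn G F w := integral_nonneg fun z => by positivity
  have n6 : R ^ (-(1 / 4) : ℝ) ≤ 1 := Real.rpow_le_one_of_one_le_of_nonpos hR1 (by norm_num)
  have n7 : R ^ (-1 : ℝ) ≤ R ^ (-(49 / 100) : ℝ) := Real.rpow_le_rpow_of_exponent_le hR1 (by norm_num)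
  have hmw : ∫⁻ y in DT d ({1} : Set Γ), ‖QF G χ ch A.z R w y‖ₑ ^ 2 ∂mY Γ d ≤ ENNReal.ofReal (2 * R ^ (-(49 / 100) : ℝ) * nn G F u) := by
    refine (H3 R G g3 hG ⊤ F {1} hDm w hwF).1.trans (ENNReal.ofReal_le_ofReal ?_)
    have h1 : (1 + R ^ (-(1 / 4) : ℝ)) * nn G F w ≤ 2 * nn G F w := mul_le_mul_of_nonneg_right (by linarith) hNw
    have h2 := mul_le_mul_of_nonneg_right n7 hN0
    linarith
  have hc : ∀ c : ℝ, 1 ≤ c → ∫⁻ y in DT d ({1} : Set Γ) \ GW Γ G r0 c R, ‖QF G χ ch A.z R u y‖ₑ ^ 2 ∂mY Γ d ≤ ENNReal.ofReal (72 * R ^ (-(49 / 100) : ℝ) * nn G F u) := by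
    intro c hc
    have h1 := hE (1 / 2) (by rw [abs_zero]; nlinarith)
    have h2 : ∫⁻ y in DT d ({1} : Set Γ) \ GW Γ G' r0 (1 / 2) R, ‖QF G' χ ch A.z R u y‖ₑ ^ 2 ∂mY Γ d ≤ ENNReal.ofReal (34 * R ^ (-(49 / 100) : ℝ) * nn G F u) := by
      refine h1.trans (ENNReal.ofReal_le_ofReal ?_)
      refine hnum.trans ?_
      have h3 := mul_le_mul_of_nonneg_left hn1 (by positivity : 0 ≤ 17 * R ^ (-(49 / 100) : ℝ))
      linarith
    have hsub : GW Γ G' r0 (1 / 2) R ⊆ GW Γ G r0 c R := by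
      intro y hy
      have hy1 := H8 R G G' g8 hG hNr hy
      refine ⟨hy1.1, hy1.2.trans ?_⟩
      exact mul_le_mul_of_nonneg_right hc hp4.le
    have h3 := EE2B_mass hFP'.meas hlin hsub (by positivity) (by positivity) h2 hmw
    refine h3.trans (ENNReal.ofReal_le_ofReal (le_of_eq ?_))
    ring
  have hp5 : 0 ≤ 72 * R ^ (-(49 / 100) : ℝ) * nn G F u := by positivity
  -- numbers
  have n1 : (73 : ℝ) ≤ R ^ (1 / 20 : ℝ) := by
    have e2 : (73 : ℝ) = ((73 : ℝ) ^ 20) ^ (1 / 20 : ℝ) := by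
      rw [← Real.rpow_natCast, ← Real.rpow_mul (by norm_num)]
      norm_num
    rw [e2]
    exact Real.rpow_le_rpow (by norm_num) g9 (by norm_num)
  have n2 : 73 * R ^ (-(1 / 4) : ℝ) ≤ R ^ (-(1 / 5) : ℝ) := by
    have e5 : R ^ (1 / 20 : ℝ) * R ^ (-(1 / 4) : ℝ) = R ^ (-(1 / 5) : ℝ) := by
      rw [← Real.rpow_add hR0]
      norm_num
    rw [← e5]
    exact mul_le_mul_of_nonneg_right n1 hp4.le
  have n3 : R ^ (-(49 / 100) : ℝ) ≤ R ^ (-(1 / 4) : ℝ) := Real.rpow_le_rpow_of_exponent_le hR1 (by norm_num)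
  have n4 : 5329 * R ^ (-(49 / 100) : ℝ) ≤ R ^ (-(1 / 5) : ℝ) := by
    have e5 : R ^ (1 / 20 : ℝ) * R ^ (1 / 20 : ℝ) * R ^ (-(49 / 100) : ℝ) = R ^ (-(39 / 100) : ℝ) := by
      rw [← Real.rpow_add hR0, ← Real.rpow_add hR0]
      norm_num
    have e6 : R ^ (-(39 / 100) : ℝ) ≤ R ^ (-(1 / 5) : ℝ) := Real.rpow_le_rpow_of_exponent_le hR1 (by norm_num)
    have e7 : (73 : ℝ) * 73 ≤ R ^ (1 / 20 : ℝ) * R ^ (1 / 20 : ℝ) := mul_le_mul n1 n1 (by norm_num) (by linarith)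
    have e8 := mul_le_mul_of_nonneg_right e7 (Real.rpow_nonneg hR0.le (-(49 / 100) : ℝ))
    rw [e5] at e8
    linarith
  have n5 : R ^ (-(1 / 2) : ℝ) ≤ R ^ (-(49 / 100) : ℝ) := Real.rpow_le_rpow_of_exponent_le hR1 (by norm_num)
  have hmeas : Measurable (QF (Γ := Γ) G χ ch A.z R u) := hFP.meas
  have hfinDT : ∫⁻ y in DT d ({1} : Set Γ), ‖QF G χ ch A.z R u y‖ₑ ^ 2 ∂mY Γ d < ⊤ := hI1.trans_lt ENNReal.ofReal_lt_top
  have hint := EE2_int hmeas _ hfinDT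
  refine ⟨hFP, ?_, ?_, ?_, ?_⟩
  · refine hA3.trans ?_
    have h1 := ENNReal.toReal_le_of_le_ofReal hp5 (hc 2 (by norm_num))
    have h2 : R ^ (-(1 / 2) : ℝ) * nn G F u ≤ R ^ (-(49 / 100) : ℝ) * nn G F u := mul_le_mul_of_nonneg_right n5 hN0
    have h3 := mul_le_mul_of_nonneg_right n4 hN0
    have h4 : 0 ≤ R ^ (-(49 / 100) : ℝ) * nn G F u := by positivity
    linarith
  · refine hA2.trans (mul_le_mul_of_nonneg_right ?_ hN0)
    linarith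
  · have hsplit := integral_inter_add_sdiff (hGW r0 1 R).1 hint
    have h1 : (1 - R ^ (-(1 / 4) : ℝ)) * nn G F u ≤ ∫ y in DT d ({1} : Set Γ), ‖QF G χ ch A.z R u y‖ ^ 2 ∂mY Γ d := by
      rw [EE2_li hmeas]
      exact (ENNReal.ofReal_le_iff_le_toReal hfinDT.ne).1 hI2
    have h2 : ∫ y in DT d ({1} : Set Γ) \ GW Γ G r0 1 R, ‖QF G χ ch A.z R u y‖ ^ 2 ∂mY Γ d ≤ 72 * R ^ (-(49 / 100) : ℝ) * nn G F u := by
      rw [EE2_li hmeas]
      exact ENNReal.toReal_le_of_le_ofReal hp5 (hc 1 le_rfl)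
    have h3 : 72 * R ^ (-(49 / 100) : ℝ) * nn G F u ≤ 72 * R ^ (-(1 / 4) : ℝ) * nn G F u :=
      mul_le_mul_of_nonneg_right (mul_le_mul_of_nonneg_left n3 (by norm_num)) hN0
    have h4 := mul_le_mul_of_nonneg_right n2 hN0
    have h5 : nP G r0 ({1} : Set Γ) 1 R (QF G χ ch A.z R u) = ∫ y in DT d ({1} : Set Γ) ∩ GW Γ G r0 1 R, ‖QF G χ ch A.z R u y‖ ^ 2 ∂mY Γ d := rfl
    rw [h5]
    linarith
  · refine setIntegral_mono_set (hint.mono_set inter_subset_left) (Eventually.of_forall fun y => by positivity) (HasSubset.Subset.eventuallyLE ?_)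
    refine inter_subset_inter_right _ ?_
    intro y hy
    refine ⟨hy.1, hy.2.trans ?_⟩
    exact mul_le_mul_of_nonneg_right (by norm_num) hp4.le

end

end Pool.Agent.VDI
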